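import Pool.Agent.H8.PL.Targets

/-!
# The axioms of the pillowcase define the labelled planar graphs which satisfy the rules
-/

set_option autoImplicit false

namespace Pool.Agent.H64.PL

open Pool.Agent.H8.PL Pool.Agent.H16.TO

theorem d2_sat {n : ℕ} (P : ℕ → ℕ → Prop) (R : ℕ → ℕ → ℕ → Prop) (φ : C2) :
    ∀ s : Bool → Fin n, φ.Sat (A := Fin n) (fun i a => P i a.val) (fun i a b => R i a.val b.val) s ↔
      φ.SatN n P R (fun w => (s w).val) := by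
  induction φ with
  | un i v => intro s; exact Iff.rfl
  | bi i v w => intro s; exact Iff.rfl
  | eq v w => intro s; exact Fin.ext_iff
  | neg φ ih => intro s; exact not_congr (ih s)
  | and φ ψ ih1 ih2 => intro s; exact and_congr (ih1 s) (ih2 s)
  | cnt k v φ ih =>
    intro s
    have h1 : {a : ℕ | a < n ∧ φ.SatN n P R (Function.update (fun w => (s w).val) v a)} =
        Fin.val '' {a : Fin n | φ.Sat (A := Fin n) (fun i a => P i a.val)
          (fun i a b => R i a.val b.val) (Function.update s v a)} := by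
      ext a
      simp only [Set.mem_ofPred_eq, Set.mem_image]
      have h2 : ∀ a : Fin n, (fun w => (Function.update s v a w).val) =
          Function.update (fun w => (s w).val) v a.val := by
        intro a
        funext w
        by_cases hw : w = v
        · subst hw
          simp
        · simp [Function.update_of_ne hw]
      constructor
      · rintro ⟨ha, h⟩
        refine ⟨⟨a, ha⟩, ?_, rfl⟩
        rw [ih, h2]
        exact h
      · rintro ⟨b, hb, rfl⟩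
        refine ⟨b.isLt, ?_⟩
        rw [ih, h2] at hb
        exact hb
    change k ≤ Set.ncard _ ↔ k ≤ Set.ncard _
    rw [h1, Set.ncard_image_of_injective _ Fin.val_injective]

theorem nc1 {n : ℕ} (p : ℕ → Prop) : {b | b < n ∧ p b}.ncard = 1 ↔ ∃! b : Fin n, p b := by
  rw [Set.ncard_eq_one]
  constructor
  · rintro ⟨a, ha⟩
    have h1 : a ∈ {b | b < n ∧ p b} := by rw [ha]; rfl
    refine ⟨⟨a, h1.1⟩, h1.2, ?_⟩
    intro b hb
    have h2 : (b : ℕ) ∈ {b | b < n ∧ p b} := ⟨b.2, hb⟩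
    rw [ha] at h2
    exact Fin.ext h2
  · rintro ⟨a, ha, hu⟩
    refine ⟨a, ?_⟩
    ext b
    constructor
    · rintro ⟨hb, hpb⟩
      have := hu ⟨b, hb⟩ hpb
      exact congrArg Fin.val this
    · intro hb
      have hb' : b = a := hb
      rw [hb']
      exact ⟨a.2, ha⟩

section
variable {Q : Type} {n : ℕ} (U : Bool → Bool → Bool → Bool → Q → Prop) (Hh Vv : Q → Q → Prop)
  (enc : Lb × Q → ℕ) (P : ℕ → ℕ → Prop) (A : ℕ → ℕ → Prop) (G : SimpleGraph (Fin n))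
  (q : Fin n → Lb × Q)

/-- a sentence on pairs of labels -/
theorem two (hL : ∀ (a : Fin n) (q' : Lb × Q), LabAt enc P q' a ↔ q a = q') (a b : Fin n)
    (F : Lb × Q → Lb × Q → Prop) :
    (∃ q1, ∃ q2, (LabAt enc P q1 a ∧ LabAt enc P q2 b) ∧ F q1 q2) ↔ F (q a) (q b) := by
  constructor
  · rintro ⟨q1, q2, ⟨h1, h2⟩, h⟩
    rw [hL] at h1 h2
    rw [h1, h2]
    exact h
  · intro h
    exact ⟨q a, q b, ⟨(hL _ _).2 rfl, (hL _ _).2 rfl⟩, h⟩

theorem one (hL : ∀ (a : Fin n) (q' : Lb × Q), LabAt enc P q' a ↔ q a = q') (a : Fin n)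
    (F : Lb × Q → Prop) :
    (∃ q1, LabAt enc P q1 a ∧ F q1) ↔ F (q a) := by
  constructor
  · rintro ⟨q1, h1, h⟩
    rw [hL] at h1
    rw [h1]
    exact h
  · intro h
    exact ⟨q a, (hL _ _).2 rfl, h⟩

theorem fin_all (F : ℕ → Prop) : (∀ a < n, F a) ↔ ∀ a : Fin n, F a :=
  ⟨fun h a => h a a.2, fun h a ha => h ⟨a, ha⟩⟩

theorem core (hA : ∀ a b : Fin n, A a b ↔ G.Adj a b)
    (hL : ∀ (a : Fin n) (q' : Lb × Q), LabAt enc P q' a ↔ q a = q') :
    AxP U Hh Vv enc n P A ↔ Rule U Hh Vv G (fun a => (q a).1) (fun a => (q a).2) := by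
  have e1 : (∀ a < n, ∃ q, LabAt enc P q a ∧ (ons true q.1 → U (decide (q.1.h = 0))
      (decide (q.1.h = 3)) (decide (q.1.v = 0)) (decide (q.1.v = 3)) q.2)) ↔
      ∀ x, ons true (q x).1 → U (decide ((q x).1.h = 0)) (decide ((q x).1.h = 3))
        (decide ((q x).1.v = 0)) (decide ((q x).1.v = 3)) (q x).2 := by
    rw [fin_all]
    exact forall_congr' fun a => one enc P q hL a (fun q => ons true q.1 → U (decide (q.1.h = 0))
      (decide (q.1.h = 3)) (decide (q.1.v = 0)) (decide (q.1.v = 3)) q.2)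
  have e2 : (∀ a < n, ∀ b < n, A a b → ∃ q, ∃ q', (LabAt enc P q a ∧ LabAt enc P q' b) ∧
      (Ea q.1 q'.1 ∨ Ea q'.1 q.1 ∨ No q.1 q'.1 ∨ No q'.1 q.1) ∧
      (ons true q.1 → ons true q'.1 → Ea q.1 q'.1 → Hh q.2 q'.2) ∧
      (ons true q.1 → ons true q'.1 → No q.1 q'.1 → Vv q.2 q'.2)) ↔
      ∀ a b, G.Adj a b → (Ea (q a).1 (q b).1 ∨ Ea (q b).1 (q a).1 ∨ No (q a).1 (q b).1 ∨
        No (q b).1 (q a).1) ∧
      (ons true (q a).1 → ons true (q b).1 → Ea (q a).1 (q b).1 → Hh (q a).2 (q b).2) ∧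
      (ons true (q a).1 → ons true (q b).1 → No (q a).1 (q b).1 → Vv (q a).2 (q b).2) := by
    rw [fin_all]
    refine forall_congr' fun a => ?_
    rw [fin_all]
    refine forall_congr' fun b => ?_
    rw [hA]
    refine imp_congr Iff.rfl ?_
    exact two enc P q hL a b (fun q q' =>
      (Ea q.1 q'.1 ∨ Ea q'.1 q.1 ∨ No q.1 q'.1 ∨ No q'.1 q.1) ∧
      (ons true q.1 → ons true q'.1 → Ea q.1 q'.1 → Hh q.2 q'.2) ∧
      (ons true q.1 → ons true q'.1 → No q.1 q'.1 → Vv q.2 q'.2))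
  have e3 : ∀ (C : Bool → Lb × Q → Prop) (D : Bool → Lb × Q → Lb × Q → Prop),
      (∀ s : Bool, ∀ a < n, (∃ q, LabAt enc P q a ∧ C s q) →
        {b | b < n ∧ A a b ∧ ∃ q, ∃ q', (LabAt enc P q a ∧ LabAt enc P q' b) ∧ D s q q'}.ncard
          = 1) ↔
      ∀ s x, C s (q x) → ∃! y, G.Adj x y ∧ D s (q x) (q y) := by
    intro C D
    refine forall_congr' fun s => ?_
    rw [fin_all]
    refine forall_congr' fun a => ?_
    refine imp_congr (one enc P q hL a (C s)) ?_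
    rw [nc1]
    refine existsUnique_congr fun b => ?_
    exact and_congr (hA a b) (two enc P q hL a b (D s))
  have e4 : (∀ h v : Fin 4, (h = 0 ∨ h = 3) → (v = 0 ∨ v = 3) →
    {a | a < n ∧ ∃ q, LabAt enc P q a ∧ q.1.h = h ∧ q.1.v = v}.ncard = 1) ↔
      ∀ h v : Fin 4, (h = 0 ∨ h = 3) → (v = 0 ∨ v = 3) → ∃! x, (q x).1.h = h ∧ (q x).1.v = v := by
    refine forall_congr' fun h => forall_congr' fun v => imp_congr Iff.rfl (imp_congr Iff.rfl ?_)
    rw [nc1]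
    refine existsUnique_congr fun b => ?_
    exact one enc P q hL b (fun q => q.1.h = h ∧ q.1.v = v)
  have e3a := e3 (fun s q => ons s q.1 ∧ q.1.h ≠ 3)
    (fun s q q' => ons s q.1 ∧ ons s q'.1 ∧ Ea q.1 q'.1)
  have e3b := e3 (fun s q => ons s q.1 ∧ q.1.h ≠ 0)
    (fun s q q' => ons s q.1 ∧ ons s q'.1 ∧ Ea q'.1 q.1)
  have e3c := e3 (fun s q => ons s q.1 ∧ q.1.v ≠ 3)
    (fun s q q' => ons s q.1 ∧ ons s q'.1 ∧ No q.1 q'.1)
  have e3d := e3 (fun s q => ons s q.1 ∧ q.1.v ≠ 0)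
    (fun s q q' => ons s q.1 ∧ ons s q'.1 ∧ No q'.1 q.1)
  have hax : AxP U Hh Vv enc n P A ↔
      (∀ x, ons true (q x).1 → U (decide ((q x).1.h = 0)) (decide ((q x).1.h = 3))
        (decide ((q x).1.v = 0)) (decide ((q x).1.v = 3)) (q x).2) ∧
      (∀ a b, G.Adj a b → (Ea (q a).1 (q b).1 ∨ Ea (q b).1 (q a).1 ∨ No (q a).1 (q b).1 ∨
        No (q b).1 (q a).1) ∧
      (ons true (q a).1 → ons true (q b).1 → Ea (q a).1 (q b).1 → Hh (q a).2 (q b).2) ∧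
      (ons true (q a).1 → ons true (q b).1 → No (q a).1 (q b).1 → Vv (q a).2 (q b).2)) ∧
      (∀ s x, (ons s (q x).1 ∧ (q x).1.h ≠ 3) →
        ∃! y, G.Adj x y ∧ ons s (q x).1 ∧ ons s (q y).1 ∧ Ea (q x).1 (q y).1) ∧
      (∀ s x, (ons s (q x).1 ∧ (q x).1.h ≠ 0) →
        ∃! y, G.Adj x y ∧ ons s (q x).1 ∧ ons s (q y).1 ∧ Ea (q y).1 (q x).1) ∧
      (∀ s x, (ons s (q x).1 ∧ (q x).1.v ≠ 3) →
        ∃! y, G.Adj x y ∧ ons s (q x).1 ∧ ons s (q y).1 ∧ No (q x).1 (q y).1) ∧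
      (∀ s x, (ons s (q x).1 ∧ (q x).1.v ≠ 0) →
        ∃! y, G.Adj x y ∧ ons s (q x).1 ∧ ons s (q y).1 ∧ No (q y).1 (q x).1) ∧
      ∀ h v : Fin 4, (h = 0 ∨ h = 3) → (v = 0 ∨ v = 3) → ∃! x, (q x).1.h = h ∧ (q x).1.v = v := by
    unfold AxP
    exact and_congr e1 (and_congr e2 (and_congr e3a (and_congr e3b (and_congr e3c
      (and_congr e3d e4)))))
  rw [hax]
  constructor
  · rintro ⟨h1, h2, h3, h4, h5, h6, h7⟩
    refine ⟨⟨fun x y h => (h2 x y h).1, fun s x h h' => h3 s x ⟨h, h'⟩, ?_,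
      fun s x h h' => h5 s x ⟨h, h'⟩, ?_, h7⟩, h1, ?_, ?_⟩
    · intro s x h h'
      refine (existsUnique_congr fun b => ?_).1 (h4 s x ⟨h, h'⟩)
      exact ⟨fun ⟨a, b, c, d⟩ => ⟨a.symm, c, b, d⟩, fun ⟨a, b, c, d⟩ => ⟨a.symm, c, b, d⟩⟩
    · intro s x h h'
      refine (existsUnique_congr fun b => ?_).1 (h6 s x ⟨h, h'⟩)
      exact ⟨fun ⟨a, b, c, d⟩ => ⟨a.symm, c, b, d⟩, fun ⟨a, b, c, d⟩ => ⟨a.symm, c, b, d⟩⟩
    · rintro x y ⟨ha, hb, hc, hd⟩
      exact (h2 x y ha).2.1 hb hc hd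
    · rintro x y ⟨ha, hb, hc, hd⟩
      exact (h2 x y ha).2.2 hb hc hd
  · rintro ⟨⟨h1, h2, h3, h4, h5, h6⟩, h7, h8, h9⟩
    refine ⟨h7, fun a b h => ⟨h1 a b h, fun h' h'' h''' => h8 a b ⟨h, h', h'', h'''⟩,
      fun h' h'' h''' => h9 a b ⟨h, h', h'', h'''⟩⟩, fun s x h => h2 s x h.1 h.2, ?_,
      fun s x h => h4 s x h.1 h.2, ?_, h6⟩
    · intro s x h
      refine (existsUnique_congr fun b => ?_).1 (h3 s x h.1 h.2)
      exact ⟨fun ⟨a, b, c, d⟩ => ⟨a.symm, c, b, d⟩, fun ⟨a, b, c, d⟩ => ⟨a.symm, c, b, d⟩⟩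
    · intro s x h
      refine (existsUnique_congr fun b => ?_).1 (h5 s x h.1 h.2)
      exact ⟨fun ⟨a, b, c, d⟩ => ⟨a.symm, c, b, d⟩, fun ⟨a, b, c, d⟩ => ⟨a.symm, c, b, d⟩⟩

end

theorem pf_d2 (hD1 : Z_D1) : Z_D2 := by
  classical
  intro Q _ U Hh Vv
  obtain ⟨k, ⟨ek⟩⟩ := Finite.exists_equiv_fin (Lb × Q)
  let enc : Lb × Q → ℕ := fun q => (ek q).val
  have henc : Function.Injective enc := fun a b h => ek.injective (Fin.ext h)
  obtain ⟨φ, -, hφ⟩ := hD1 Q U Hh Vv enc henc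
  refine ⟨φ, fun n => ?_⟩
  -- satisfaction
  have key : ∀ (P : ℕ → Fin n → Prop) (G : SimpleGraph (Fin n)), 0 < n →
      ((∀ s : Bool → Fin n, φ.Sat P (fun _ => G.Adj) s) ↔
        AxP U Hh Vv enc n (fun i a => ∃ h : a < n, P i ⟨a, h⟩)
          (fun a b => ∃ (ha : a < n) (hb : b < n), G.Adj ⟨a, ha⟩ ⟨b, hb⟩)) := by
    intro P G hn
    have hP : (fun (i : ℕ) (a : Fin n) => ∃ h : a.val < n, P i ⟨a.val, h⟩) = P := by
      funext i a
      exact propext ⟨fun ⟨_, h⟩ => h, fun h => ⟨a.isLt, h⟩⟩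
    have hR : (fun (_ : ℕ) (a b : Fin n) => ∃ (ha : a.val < n) (hb : b.val < n),
        G.Adj ⟨a.val, ha⟩ ⟨b.val, hb⟩) = (fun _ => G.Adj) := by
      funext i a b
      exact propext ⟨fun ⟨_, _, h⟩ => h, fun h => ⟨a.isLt, b.isLt, h⟩⟩
    have hs : ∀ s : Bool → Fin n, φ.Sat P (fun _ => G.Adj) s ↔
        AxP U Hh Vv enc n (fun i a => ∃ h : a < n, P i ⟨a, h⟩)
          (fun a b => ∃ (ha : a < n) (hb : b < n), G.Adj ⟨a, ha⟩ ⟨b, hb⟩) := by
      intro s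
      have h1 := d2_sat (n := n) (fun i a => ∃ h : a < n, P i ⟨a, h⟩)
        (fun _ a b => ∃ (ha : a < n) (hb : b < n), G.Adj ⟨a, ha⟩ ⟨b, hb⟩) φ s
      rw [hP, hR] at h1
      rw [h1]
      exact hφ n _ _ _ (fun w => (s w).2)
    constructor
    · intro h
      exact (hs (fun _ => ⟨0, hn⟩)).1 (h _)
    · intro h s
      exact (hs s).2 h
  have hA : ∀ (G : SimpleGraph (Fin n)) (a b : Fin n),
      (∃ (ha : a.val < n) (hb : b.val < n), G.Adj ⟨a.val, ha⟩ ⟨b.val, hb⟩) ↔ G.Adj a b :=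
    fun G a b => ⟨fun ⟨_, _, h⟩ => h, fun h => ⟨a.isLt, b.isLt, h⟩⟩
  constructor
  · rintro ⟨hn, P, G, hG, hs⟩
    have hax := (key P G hn).1 hs
    have hex := hax.1
    have : Nonempty (Lb × Q) := (hex 0 hn).nonempty
    choose! q hq using hex
    have hL : ∀ (a : Fin n) (q' : Lb × Q),
        LabAt enc (fun i a => ∃ h : a < n, P i ⟨a, h⟩) q' a ↔ q a = q' := by
      intro a q'
      have h1 := (hq a a.2).1
      constructor
      · intro h2
        by_contra hne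
        exact h1.2 q' (fun h => hne h.symm) h2.1
      · rintro rfl
        exact h1
    refine ⟨hn, G, fun a => (q a).1, fun a => (q a).2, hG, ?_⟩
    exact (core U Hh Vv enc _ _ G (fun a => q a) (hA G) hL).1 hax
  · rintro ⟨hn, G, lb, ti, hG, hr⟩
    refine ⟨hn, fun i a => enc (lb a, ti a) = i, G, hG, ?_⟩
    rw [key _ G hn]
    refine (core U Hh Vv enc _ _ G (fun a => (lb a, ti a)) (hA G) ?_).2 hr
    intro a q'
    constructor
    · rintro ⟨⟨_, h1⟩, _⟩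
      exact henc h1
    · rintro rfl
      refine ⟨⟨a.2, rfl⟩, ?_⟩
      rintro q'' hne ⟨_, h⟩
      exact hne (henc h).symm

end Pool.Agent.H64.PL
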