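import Pool.Agent.H8.PL.Targets

/-!
# The rules of the pillowcase determine the degrees
-/

set_option autoImplicit false
set_option linter.unusedSectionVars false

namespace Pool.Agent.H64.PL

open Pool.Agent.H8.PL

section
variable {V : Type} (G : SimpleGraph V) (lb : V → Lb)

/-- the neighbours in one direction -/
def nbd (R : Lb → Lb → Prop) (x : V) : Set V := {y | G.Adj x y ∧ R (lb x) (lb y)}

theorem nbd_one (R : Lb → Lb → Prop) (x : V)
    (hu : ∀ s, ons s (lb x) → ∃! y, G.Adj x y ∧ ons s (lb x) ∧ ons s (lb y) ∧ R (lb x) (lb y))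
    (hf : ∀ q', R (lb x) q' → mid (lb x) → mid q' → q'.f = (lb x).f) (hm : mid (lb x)) :
    (nbd G lb R x).ncard = 1 := by
  have hs : ons (lb x).f (lb x) := fun _ => rfl
  obtain ⟨y, hy, huy⟩ := hu _ hs
  rw [Set.ncard_eq_one]
  refine ⟨y, ?_⟩
  ext z
  constructor
  · rintro ⟨h1, h2⟩
    exact huy z ⟨h1, hs, fun hz => hf _ h2 hm hz, h2⟩
  · intro hz
    have hz' : z = y := hz
    rw [hz']
    exact ⟨hy.1, hy.2.2.2⟩

theorem nbd_one' (R : Lb → Lb → Prop) (x : V)
    (hu : ∀ s, ons s (lb x) → ∃! y, G.Adj x y ∧ ons s (lb x) ∧ ons s (lb y) ∧ R (lb x) (lb y))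
    (hm : ¬ mid (lb x)) (hn : ∀ q', R (lb x) q' → ¬ mid q') :
    (nbd G lb R x).ncard = 1 := by
  have hs : ons true (lb x) := fun h => absurd h hm
  obtain ⟨y, hy, huy⟩ := hu _ hs
  rw [Set.ncard_eq_one]
  refine ⟨y, ?_⟩
  ext z
  constructor
  · rintro ⟨h1, h2⟩
    exact huy z ⟨h1, hs, fun hz => absurd hz (hn _ h2), h2⟩
  · intro hz
    have hz' : z = y := hz
    rw [hz']
    exact ⟨hy.1, hy.2.2.2⟩

theorem nbd_two (R : Lb → Lb → Prop) (x : V)
    (hu : ∀ s, ons s (lb x) → ∃! y, G.Adj x y ∧ ons s (lb x) ∧ ons s (lb y) ∧ R (lb x) (lb y))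
    (hm : ¬ mid (lb x)) (hn : ∀ q', R (lb x) q' → mid q') :
    (nbd G lb R x).ncard = 2 := by
  have hs : ∀ s, ons s (lb x) := fun s h => absurd h hm
  obtain ⟨y, hy, huy⟩ := hu true (hs _)
  obtain ⟨w, hw, huw⟩ := hu false (hs _)
  rw [Set.ncard_eq_two]
  refine ⟨y, w, ?_, ?_⟩
  · rintro rfl
    have h1 := hy.2.2.1 (hn _ hy.2.2.2)
    have h2 := hw.2.2.1 (hn _ hw.2.2.2)
    rw [h1] at h2
    cases h2
  · ext z
    constructor
    · rintro ⟨h1, h2⟩
      have hz := hn _ h2
      cases hf : (lb z).f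
      · exact Or.inr (huw z ⟨h1, hs _, fun _ => hf, h2⟩)
      · exact Or.inl (huy z ⟨h1, hs _, fun _ => hf, h2⟩)
    · rintro (rfl | hz)
      · exact ⟨hy.1, hy.2.2.2⟩
      · have hz' : z = w := hz
        rw [hz']
        exact ⟨hw.1, hw.2.2.2⟩

theorem nbd_zero (R : Lb → Lb → Prop) (x : V) (h : ∀ q', ¬ R (lb x) q') :
    (nbd G lb R x).ncard = 0 := by
  have : nbd G lb R x = ∅ := by
    ext z
    constructor
    · rintro ⟨_, h2⟩
      exact h _ h2
    · intro hz
      exact absurd hz (by simp)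
  rw [this, Set.ncard_empty]

end

theorem stp_cases : ∀ a b : Fin 4, stp a b → a ≠ 3 ∧ b ≠ 0 ∧ (a = 0 → b = 1) ∧ (b = 3 → a = 2) := by
  intro a b h
  unfold stp at h
  rcases h with ⟨rfl, rfl⟩ | ⟨rfl, rfl⟩ | ⟨rfl, rfl⟩ | ⟨rfl, rfl⟩ <;> decide

theorem z6 : ∀ a : ZMod 6, a + 1 ≠ a ∧ a + 1 + 1 ≠ a := by decide

section
variable {V : Type} [Finite V] {G : SimpleGraph V} {lb : V → Lb}

/-- the neighbourhood is the union of the four directions -/
theorem nb_union (h : LR G lb) (x : V) : (G.neighborSet x).ncard =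
    (nbd G lb (fun q q' => Ea q q') x).ncard + (nbd G lb (fun q q' => Ea q' q) x).ncard +
    (nbd G lb (fun q q' => No q q') x).ncard + (nbd G lb (fun q q' => No q' q) x).ncard := by
  have hun : G.neighborSet x = nbd G lb (fun q q' => Ea q q') x ∪ nbd G lb (fun q q' => Ea q' q) x ∪
      nbd G lb (fun q q' => No q q') x ∪ nbd G lb (fun q q' => No q' q) x := by
    ext y
    constructor
    · intro hy
      have hy' : G.Adj x y := hy
      rcases h.adj x y hy' with h1 | h1 | h1 | h1
      · exact Or.inl (Or.inl (Or.inl ⟨hy', h1⟩))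
      · exact Or.inl (Or.inl (Or.inr ⟨hy', h1⟩))
      · exact Or.inl (Or.inr ⟨hy', h1⟩)
      · exact Or.inr ⟨hy', h1⟩
    · rintro (((h1 | h1) | h1) | h1) <;> exact h1.1
  rw [hun, Set.ncard_union_eq, Set.ncard_union_eq, Set.ncard_union_eq]
  · rw [Set.disjoint_left]
    rintro y ⟨_, h1⟩ ⟨_, h2⟩
    have h1' := h1.2.2.1
    have h2' := h2.2.2.1
    rw [h1'] at h2'
    exact (z6 _).2 h2'.symm
  · rw [Set.disjoint_left]
    rintro y (⟨_, h1⟩ | ⟨_, h1⟩) ⟨_, h2⟩
    · have h1' := h1.2.2.1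
      have h2' := h2.2.2.1
      rw [h1'] at h2'
      exact (z6 _).1 h2'
    · have h1' := h1.2.2.1
      have h2' := h2.2.2.1
      rw [h2'] at h1'
      exact (z6 _).1 h1'.symm
  · rw [Set.disjoint_left]
    rintro y ((⟨_, h1⟩ | ⟨_, h1⟩) | ⟨_, h1⟩) ⟨_, h2⟩
    · have h1' := h1.2.2.1
      have h2' := h2.2.2.1
      rw [h1'] at h2'
      exact (z6 _).1 h2'.symm
    · have h1' := h1.2.2.1
      have h2' := h2.2.2.1
      rw [h2'] at h1'
      exact (z6 _).1 h1'.symm
    · have h1' := h1.2.2.2.1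
      have h2' := h2.2.2.2.1
      rw [h1'] at h2'
      exact (z6 _).2 h2'.symm

theorem f4 : ∀ a : Fin 4, a = 0 ∨ a = 3 ∨ (a = 1 ∨ a = 2) := by decide

theorem card_E (h : LR G lb) (x : V) : (nbd G lb (fun q q' => Ea q q') x).ncard =
    if (lb x).h = 3 then 0 else if (lb x).h = 0 ∧ ((lb x).v = 1 ∨ (lb x).v = 2) then 2 else 1 := by
  split_ifs with h1 h2
  · apply nbd_zero
    intro q' h3
    exact (stp_cases _ _ h3.1).1 h1
  · apply nbd_two
    · exact fun s hs => h.ea s x hs h1
    · intro hm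
      have := hm.1
      rw [h2.1] at this
      revert this
      decide
    · intro q' h3
      refine ⟨Or.inl ((stp_cases _ _ h3.1).2.2.1 h2.1), ?_⟩
      rw [h3.2.1]
      exact h2.2
  · by_cases hm : mid (lb x)
    · apply nbd_one
      · exact fun s hs => h.ea s x hs h1
      · exact fun q' h3 => h3.2.2.2.2
      · exact hm
    · apply nbd_one'
      · exact fun s hs => h.ea s x hs h1
      · exact hm
      · intro q' h3 hm'
        have h4 := hm'.2
        rw [h3.2.1] at h4
        rcases f4 (lb x).h with h5 | h5 | h5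
        · exact h2 ⟨h5, h4⟩
        · exact h1 h5
        · exact hm ⟨h5, h4⟩

theorem card_W (h : LR G lb) (x : V) : (nbd G lb (fun q q' => Ea q' q) x).ncard =
    if (lb x).h = 0 then 0 else if (lb x).h = 3 ∧ ((lb x).v = 1 ∨ (lb x).v = 2) then 2 else 1 := by
  have hwe : (lb x).h ≠ 0 → ∀ s, ons s (lb x) →
      ∃! y, G.Adj x y ∧ ons s (lb x) ∧ ons s (lb y) ∧ Ea (lb y) (lb x) := by
    intro h1 s hs
    refine (existsUnique_congr fun y => ?_).1 (h.we s x hs h1)
    exact ⟨fun ⟨a, b, c, d⟩ => ⟨a.symm, c, b, d⟩, fun ⟨a, b, c, d⟩ => ⟨a.symm, c, b, d⟩⟩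
  split_ifs with h1 h2
  · apply nbd_zero
    intro q' h3
    exact (stp_cases _ _ h3.1).2.1 h1
  · apply nbd_two
    · exact hwe h1
    · intro hm
      have := hm.1
      rw [h2.1] at this
      revert this
      decide
    · intro q' h3
      refine ⟨Or.inr ((stp_cases _ _ h3.1).2.2.2 h2.1), ?_⟩
      rw [← h3.2.1]
      exact h2.2
  · by_cases hm : mid (lb x)
    · apply nbd_one
      · exact hwe h1
      · exact fun q' h3 a b => (h3.2.2.2.2 b a).symm
      · exact hm
    · apply nbd_one'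
      · exact hwe h1
      · exact hm
      · intro q' h3 hm'
        have h4 := hm'.2
        rw [← h3.2.1] at h4
        rcases f4 (lb x).h with h5 | h5 | h5
        · exact h1 h5
        · exact h2 ⟨h5, h4⟩
        · exact hm ⟨h5, h4⟩

theorem card_N (h : LR G lb) (x : V) : (nbd G lb (fun q q' => No q q') x).ncard =
    if (lb x).v = 3 then 0 else if (lb x).v = 0 ∧ ((lb x).h = 1 ∨ (lb x).h = 2) then 2 else 1 := by
  split_ifs with h1 h2
  · apply nbd_zero
    intro q' h3
    exact (stp_cases _ _ h3.2.1).1 h1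
  · apply nbd_two
    · exact fun s hs => h.no s x hs h1
    · intro hm
      have := hm.2
      rw [h2.1] at this
      revert this
      decide
    · intro q' h3
      refine ⟨?_, Or.inl ((stp_cases _ _ h3.2.1).2.2.1 h2.1)⟩
      rw [h3.1]
      exact h2.2
  · by_cases hm : mid (lb x)
    · apply nbd_one
      · exact fun s hs => h.no s x hs h1
      · exact fun q' h3 => h3.2.2.2.2
      · exact hm
    · apply nbd_one'
      · exact fun s hs => h.no s x hs h1
      · exact hm
      · intro q' h3 hm'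
        have h4 := hm'.1
        rw [h3.1] at h4
        rcases f4 (lb x).v with h5 | h5 | h5
        · exact h2 ⟨h5, h4⟩
        · exact h1 h5
        · exact hm ⟨h4, h5⟩

theorem card_S (h : LR G lb) (x : V) : (nbd G lb (fun q q' => No q' q) x).ncard =
    if (lb x).v = 0 then 0 else if (lb x).v = 3 ∧ ((lb x).h = 1 ∨ (lb x).h = 2) then 2 else 1 := by
  have hso : (lb x).v ≠ 0 → ∀ s, ons s (lb x) →
      ∃! y, G.Adj x y ∧ ons s (lb x) ∧ ons s (lb y) ∧ No (lb y) (lb x) := by
    intro h1 s hs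
    refine (existsUnique_congr fun y => ?_).1 (h.so s x hs h1)
    exact ⟨fun ⟨a, b, c, d⟩ => ⟨a.symm, c, b, d⟩, fun ⟨a, b, c, d⟩ => ⟨a.symm, c, b, d⟩⟩
  split_ifs with h1 h2
  · apply nbd_zero
    intro q' h3
    exact (stp_cases _ _ h3.2.1).2.1 h1
  · apply nbd_two
    · exact hso h1
    · intro hm
      have := hm.2
      rw [h2.1] at this
      revert this
      decide
    · intro q' h3
      refine ⟨?_, Or.inr ((stp_cases _ _ h3.2.1).2.2.2 h2.1)⟩
      rw [← h3.1]
      exact h2.2
  · by_cases hm : mid (lb x)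
    · apply nbd_one
      · exact hso h1
      · exact fun q' h3 a b => (h3.2.2.2.2 b a).symm
      · exact hm
    · apply nbd_one'
      · exact hso h1
      · exact hm
      · intro q' h3 hm'
        have h4 := hm'.1
        rw [← h3.1] at h4
        rcases f4 (lb x).v with h5 | h5 | h5
        · exact h1 h5
        · exact h2 ⟨h5, h4⟩
        · exact hm ⟨h4, h5⟩

theorem arith : ∀ a b : Fin 4,
    (if a = 3 then 0 else if a = 0 ∧ (b = 1 ∨ b = 2) then 2 else 1) +
    (if a = 0 then 0 else if a = 3 ∧ (b = 1 ∨ b = 2) then 2 else 1) +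
    (if b = 3 then 0 else if b = 0 ∧ (a = 1 ∨ a = 2) then 2 else 1) +
    (if b = 0 then 0 else if b = 3 ∧ (a = 1 ∨ a = 2) then 2 else 1) =
    if (a = 0 ∨ a = 3) ∧ (b = 0 ∨ b = 3) then 2 else 4 := by decide

theorem deg_eq (h : LR G lb) (x : V) : (G.neighborSet x).ncard =
    if ((lb x).h = 0 ∨ (lb x).h = 3) ∧ ((lb x).v = 0 ∨ (lb x).v = 3) then 2 else 4 := by
  rw [nb_union h, card_E h, card_W h, card_N h, card_S h]
  exact arith _ _

end

theorem z2 : ∀ a : ZMod 2, decide (a = 0) ≠ decide (a + 1 = 0) := by decide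

theorem pf_dg : Z_DG := by
  classical
  intro V _ G lb h
  refine ⟨deg_eq h, ?_, ?_⟩
  · have : Fintype V := Fintype.ofFinite V
    have h1 : ∑ v : V, G.degree v = 2 * G.edgeFinset.card := G.sum_degrees_eq_twice_card_edges
    have h2 : ∀ v : V, G.degree v =
        if ((lb v).h = 0 ∨ (lb v).h = 3) ∧ ((lb v).v = 0 ∨ (lb v).v = 3) then 2 else 4 := by
      intro v
      rw [← deg_eq h v, ← SimpleGraph.card_neighborSet_eq_degree, Set.ncard_eq_toFinset_card',
        Set.toFinset_card]
    have h3 : ∑ v : V, G.degree v + 2 * (Finset.univ.filter fun v : V =>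
        ((lb v).h = 0 ∨ (lb v).h = 3) ∧ ((lb v).v = 0 ∨ (lb v).v = 3)).card =
        4 * Fintype.card V := by
      rw [Finset.card_filter, Finset.mul_sum, ← Finset.sum_add_distrib]
      have h4 : ∀ v ∈ (Finset.univ : Finset V), (G.degree v + 2 * (if ((lb v).h = 0 ∨ (lb v).h = 3) ∧
          ((lb v).v = 0 ∨ (lb v).v = 3) then 1 else 0)) = 4 := by
        intro v _
        rw [h2]
        split_ifs <;> rfl
      rw [Finset.sum_congr rfl h4, Finset.sum_const, Finset.card_univ, smul_eq_mul, mul_comm]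
    have h5 : (Finset.univ.filter fun v : V =>
        ((lb v).h = 0 ∨ (lb v).h = 3) ∧ ((lb v).v = 0 ∨ (lb v).v = 3)).card = 4 := by
      rw [Finset.card_eq_sum_card_fiberwise (f := fun v => ((lb v).h, (lb v).v))
        (t := ({0, 3} : Finset (Fin 4)) ×ˢ ({0, 3} : Finset (Fin 4)))]
      · have h6 : ∀ b ∈ ({0, 3} : Finset (Fin 4)) ×ˢ ({0, 3} : Finset (Fin 4)),
            ((Finset.univ.filter fun v : V => ((lb v).h = 0 ∨ (lb v).h = 3) ∧
              ((lb v).v = 0 ∨ (lb v).v = 3)).filter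
                fun v => ((lb v).h, (lb v).v) = b).card = 1 := by
          rintro ⟨b, c⟩ hb
          simp only [Finset.mem_product, Finset.mem_insert, Finset.mem_singleton] at hb
          obtain ⟨x, hx, hu⟩ := h.cor b c hb.1 hb.2
          rw [Finset.card_eq_one]
          refine ⟨x, ?_⟩
          ext y
          simp only [Finset.mem_filter, Finset.mem_univ, true_and, Finset.mem_singleton,
            Prod.mk.injEq]
          constructor
          · rintro ⟨_, h7⟩
            exact hu y h7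
          · rintro rfl
            refine ⟨?_, hx⟩
            rw [hx.1, hx.2]
            exact hb
        rw [Finset.sum_congr rfl h6]
        rfl
      · intro v hv
        simp only [Finset.coe_filter, Finset.mem_univ, true_and, Set.mem_ofPred_eq] at hv
        simp only [Finset.coe_product, Finset.coe_insert, Finset.coe_singleton, Set.mem_prod,
          Set.mem_insert_iff, Set.mem_singleton_iff]
        exact hv
    have h6 : Nat.card G.edgeSet = G.edgeFinset.card := by
      rw [Nat.card_eq_fintype_card, SimpleGraph.edgeFinset_card]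
    rw [h6, Nat.card_eq_fintype_card]
    rw [h5] at h3
    omega
  · let c := ZMod.castHom (show 2 ∣ 6 by norm_num) (ZMod 2)
    refine ⟨fun x => decide (c ((lb x).i + (lb x).j) = 0), ?_⟩
    have hst : ∀ q q' : Lb, q'.i + q'.j = q.i + q.j + 1 →
        decide (c (q.i + q.j) = 0) ≠ decide (c (q'.i + q'.j) = 0) := by
      intro q q' h1
      have h7 : c (q.i + q.j + 1) = c (q.i + q.j) + 1 := by
        rw [map_add c _ 1, map_one c]
      rw [h1, h7]
      exact z2 _
    intro a b hab
    rcases h.adj a b hab with h1 | h1 | h1 | h1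
    · apply hst
      rw [h1.2.2.1, h1.2.2.2.1]
      ring
    · apply Ne.symm
      apply hst
      rw [h1.2.2.1, h1.2.2.2.1]
      ring
    · apply hst
      rw [h1.2.2.1, h1.2.2.2.1]
      ring
    · apply Ne.symm
      apply hst
      rw [h1.2.2.1, h1.2.2.2.1]
      ring

end Pool.Agent.H64.PL
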