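import Pool.Agent.H8.PL.Targets

/-!
# Planar bipartite graphs with `2 V - 4` edges
-/

set_option autoImplicit false

namespace Pool.Agent.H64.PL

open Pool.Agent.H8.PL

/-- no cycle of length below four: four elements in each class -/
theorem four_le {X : Type} [Finite X] (f : Equiv.Perm X) (h1 : ∀ d, f d ≠ d)
    (h2 : ∀ d, f (f d) ≠ d) (h3 : ∀ d, f (f (f d)) ≠ d) :
    4 * Nat.card (Quotient (Equiv.Perm.SameCycle.setoid f)) ≤ Nat.card X ∧
    (4 * Nat.card (Quotient (Equiv.Perm.SameCycle.setoid f)) = Nat.card X →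
      ∀ d, (f ^ 4) d = d) := by
  classical
  have hp : ∀ (k : ℕ) (d : X), 0 < k → k < 4 → (f ^ k) d ≠ d := by
    intro k d hk hk4
    interval_cases k
    · simpa using h1 d
    · simpa [pow_succ] using h2 d
    · simpa [pow_succ] using h3 d
  have hij : ∀ (i j : ℕ) (d : X), i < j → j < i + 4 → (f ^ i) d ≠ (f ^ j) d := by
    intro i j d hij hj4 he
    have : (f ^ j) d = (f ^ i) ((f ^ (j - i)) d) := by
      rw [← Equiv.Perm.mul_apply, ← pow_add]
      congr 2
      omega
    rw [this] at he
    have h' := (f ^ i).injective he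
    exact hp (j - i) d (by omega) (by omega) h'.symm
  let s := Equiv.Perm.SameCycle.setoid f
  let φ : Quotient s × Fin 4 → X := fun q => (f ^ (q.2 : ℕ)) q.1.out
  have hcl : ∀ (q : Quotient s) (i : ℕ), (Quotient.mk s ((f ^ i) q.out)) = q := by
    intro q i
    conv_rhs => rw [← Quotient.out_eq q]
    apply Quotient.sound
    show f.SameCycle _ _
    exact (Equiv.Perm.SameCycle.refl f _).pow_left
  have hinj : Function.Injective φ := by
    rintro ⟨q, i⟩ ⟨q', j⟩ he
    have he' : (f ^ (i : ℕ)) q.out = (f ^ (j : ℕ)) q'.out := he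
    have hq : q = q' := by
      rw [← hcl q i, ← hcl q' j, he']
    subst hq
    congr 1
    by_contra hne
    have hne' : (i : ℕ) ≠ j := fun h => hne (Fin.ext h)
    have hi := i.2
    have hj := j.2
    rcases lt_or_gt_of_ne hne' with h | h
    · exact hij i j _ h (by omega) he'
    · exact hij j i _ h (by omega) he'.symm
  have hc : Nat.card (Quotient s × Fin 4) = 4 * Nat.card (Quotient s) := by
    rw [Nat.card_prod, Nat.card_fin, mul_comm]
  refine ⟨?_, ?_⟩
  · have := Nat.card_le_card_of_injective φ hinj
    rw [hc] at this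
    exact this
  · intro heq
    have hsur : Function.Surjective φ := by
      have : Function.Bijective φ := by
        rw [Nat.bijective_iff_injective_and_card]
        exact ⟨hinj, by rw [hc]; exact heq⟩
      exact this.2
    intro d
    obtain ⟨⟨q', i⟩, hi⟩ := hsur ((f ^ 4) (Quotient.mk s d).out)
    have hi' : (f ^ (i : ℕ)) q'.out = (f ^ 4) (Quotient.mk s d).out := hi
    have hq : q' = Quotient.mk s d := by
      rw [← hcl q' i, hi', hcl]
    subst hq
    have hi4 := i.2
    have h0 : (i : ℕ) = 0 := by
      by_contra h0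
      exact hij i 4 _ hi4 (by omega) hi'
    rw [h0] at hi'
    have h4 : (f ^ 4) (Quotient.mk s d).out = (Quotient.mk s d).out := by
      rw [← hi']; simp
    have hsc : f.SameCycle (Quotient.mk s d).out d := by
      have := Quotient.mk_out (s := s) d
      exact this
    obtain ⟨k, hk⟩ := hsc
    rw [← hk, ← Equiv.Perm.mul_apply, ← zpow_natCast, ← zpow_add, add_comm, zpow_add,
      Equiv.Perm.mul_apply, zpow_natCast, h4]

theorem pf_fq : Z_FQ := by
  classical
  intro V _ G hpl hbi hdeg hE
  obtain ⟨σ, hσ, hcount⟩ := hpl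
  obtain ⟨p, hp⟩ := hbi
  have : Fintype V := Fintype.ofFinite V
  have hne : ∀ a : V, ∃ b, G.Adj a b := by
    intro a
    have h := hdeg a
    by_contra hno
    push Not at hno
    have : G.neighborSet a = ∅ := by
      ext b
      simp [hno b]
    rw [this] at h
    simp at h
  -- the face permutation has no short cycles
  have hfst : ∀ d : G.Dart, (facePerm G σ d).fst = d.snd := by
    intro d
    show (σ d.symm).fst = d.snd
    rw [hσ.fst]
    rfl
  have h1 : ∀ d, facePerm G σ d ≠ d := by
    intro d h
    have := hfst d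
    rw [h] at this
    exact d.adj.ne this
  have h2 : ∀ d, facePerm G σ (facePerm G σ d) ≠ d := by
    intro d h
    have ha := hfst d
    have hb := hfst (facePerm G σ d)
    rw [h] at hb
    have hfix : facePerm G σ d = d.symm := by
      apply SimpleGraph.Dart.ext
      apply Prod.ext
      · exact ha
      · exact hb.symm
    have hfix' : σ d.symm = d.symm := hfix
    have hd := hdeg d.snd
    have hle : (G.neighborSet d.snd).ncard ≤ 1 := by
      have : Nonempty V := ⟨d.fst⟩
      rw [Set.ncard_le_one_iff_subset_singleton]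
      refine ⟨d.fst, ?_⟩
      intro b hb'
      have hadj : G.Adj d.snd b := hb'
      have hc := hσ.cyc d.symm ⟨(d.snd, b), hadj⟩ rfl
      have := (hc.eq_of_left hfix')
      have h3 := congrArg (fun e : G.Dart => e.snd) this
      exact h3.symm
    omega
  have h3 : ∀ d, facePerm G σ (facePerm G σ (facePerm G σ d)) ≠ d := by
    intro d h
    have ha := hfst d
    have hb := hfst (facePerm G σ d)
    have hc := hfst (facePerm G σ (facePerm G σ d))
    rw [h] at hc
    have q1 := hp _ _ d.adj
    have q2 := hp _ _ (facePerm G σ d).adj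
    have q3 := hp _ _ (facePerm G σ (facePerm G σ d)).adj
    rw [ha] at q2
    rw [hb, ← hc] at q3
    revert q1 q2 q3
    cases p d.fst <;> cases p d.snd <;> cases p (facePerm G σ d).snd <;> simp
  obtain ⟨hF, hF4⟩ := four_le (facePerm G σ) h1 h2 h3
  -- the number of the darts
  have hD : Nat.card G.Dart = 2 * Nat.card G.edgeSet := by
    rw [Nat.card_eq_fintype_card, Nat.card_eq_fintype_card, G.dart_card_eq_twice_card_edges,
      SimpleGraph.edgeFinset_card]
  -- the number of the vertices
  have hV : Nat.card {v : V // ∃ d : G.Dart, d.fst = v} = Nat.card V := by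
    apply Nat.card_congr
    refine Equiv.subtypeUnivEquiv ?_
    intro v
    obtain ⟨b, hb⟩ := hne v
    exact ⟨⟨(v, b), hb⟩, rfl⟩
  have hV0 : 0 < Nat.card V := by omega
  obtain ⟨v0⟩ : Nonempty V := (Nat.card_pos_iff.mp hV0).1
  have hmem : ∀ v : V, ∃ d : G.Dart, G.connectedComponentMk d.fst = G.connectedComponentMk v := by
    intro v
    obtain ⟨b, hb⟩ := hne v
    exact ⟨⟨(v, b), hb⟩, rfl⟩
  have : Nonempty {K : G.ConnectedComponent // ∃ d : G.Dart, G.connectedComponentMk d.fst = K} :=
    ⟨⟨_, hmem v0⟩⟩
  have hC : 0 < Nat.card {K : G.ConnectedComponent //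
      ∃ d : G.Dart, G.connectedComponentMk d.fst = K} := Nat.card_pos
  rw [hV] at hcount
  have hC1 : Nat.card {K : G.ConnectedComponent //
      ∃ d : G.Dart, G.connectedComponentMk d.fst = K} ≤ 1 := by omega
  refine ⟨?_, σ, hσ, ?_⟩
  · have : Nonempty V := ⟨v0⟩
    refine SimpleGraph.Connected.mk ?_
    intro a b
    have := Finite.card_le_one_iff_subsingleton.mp hC1
    have := Subsingleton.elim
      (⟨_, hmem a⟩ : {K : G.ConnectedComponent //
        ∃ d : G.Dart, G.connectedComponentMk d.fst = K}) ⟨_, hmem b⟩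
    have h' := congrArg Subtype.val this
    exact SimpleGraph.ConnectedComponent.exact h'
  · apply hF4
    omega

end Pool.Agent.H64.PL
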