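import Pool.Agent.H8.PL.Targets

/-!
# The pillowcase is finite and connected; the number of its vertices
-/

set_option autoImplicit false

namespace Pool.Agent.H64.PL

open Pool.Agent.H8.PL

theorem pv_finite (W H : ℕ) : Finite (PV W H) := by
  refine Finite.of_injective (β := Bool × Fin W × Fin H)
    (fun p => (p.1.1, ⟨p.1.2.1, p.2.1⟩, ⟨p.1.2.2, p.2.2.1⟩)) ?_
  rintro ⟨⟨a, b, c⟩, h⟩ ⟨⟨a', b', c'⟩, h'⟩ he
  simp only [Prod.mk.injEq, Fin.mk.injEq] at he
  obtain ⟨rfl, rfl, rfl⟩ := he
  rfl

theorem pv_reach (W H : ℕ) (hW : 4 ≤ W) (o : PV W H) (ho : o.1 = (true, 0, 0)) :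
    ∀ (n : ℕ) (p : PV W H), p.1.2.1 + p.1.2.2 = n → (PG W H).Reachable p o := by
  intro n
  induction n with
  | zero =>
    intro p hp
    have : p = o := by
      apply Subtype.ext
      rw [ho]
      obtain ⟨⟨a, b, c⟩, h⟩ := p
      simp only at hp h
      obtain ⟨rfl, rfl⟩ : b = 0 ∧ c = 0 := by omega
      cases a
      · have := (h.2.2 rfl).1
        omega
      · rfl
    rw [this]
  | succ n ih =>
    intro p hp
    obtain ⟨⟨a, x, y⟩, h⟩ := p
    simp only at hp h
    by_cases hx : 0 < x
    · let a' : Bool := if x = 1 then true else a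
      have hq : (x - 1) < W ∧ y < H ∧ (a' = false → 0 < x - 1 ∧ x - 1 + 1 < W ∧ 0 < y ∧ y + 1 < H) := by
        refine ⟨by omega, h.2.1, ?_⟩
        intro ha
        by_cases h1 : x = 1
        · simp [a', h1] at ha
        · simp only [a', h1, if_false] at ha
          have := h.2.2 ha
          omega
      let q : PV W H := ⟨(a', x - 1, y), hq⟩
      have hadj : (PG W H).Adj ⟨(a, x, y), h⟩ q := by
        refine ⟨Or.inl ⟨Or.inr ?_, rfl⟩, ?_⟩
        · show x = x - 1 + 1
          omega
        · intro _ h2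
          have h2' : 0 < x - 1 := h2.1
          show a = a'
          have h1 : x ≠ 1 := by omega
          simp [a', h1]
      refine hadj.reachable.trans (ih q ?_)
      show x - 1 + y = n
      omega
    · have hx0 : x = 0 := by omega
      subst hx0
      have ha : a = true := by
        cases a
        · have := (h.2.2 rfl).1
          omega
        · rfl
      subst ha
      have hq : 0 < W ∧ (y - 1) < H ∧ (true = false → 0 < 0 ∧ 0 + 1 < W ∧ 0 < y - 1 ∧ y - 1 + 1 < H) :=
        ⟨by omega, by omega, fun h => by cases h⟩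
      let q : PV W H := ⟨(true, 0, y - 1), hq⟩
      have hadj : (PG W H).Adj ⟨(true, 0, y), h⟩ q := by
        refine ⟨Or.inr ⟨rfl, Or.inr ?_⟩, fun _ _ => rfl⟩
        show y = y - 1 + 1
        omega
      refine hadj.reachable.trans (ih q ?_)
      show 0 + (y - 1) = n
      omega

theorem pf_pn : Z_PN := by
  intro W H hW hH
  have hfin := pv_finite W H
  have ho : 0 < W ∧ 0 < H ∧ (true = false → 0 < 0 ∧ 0 + 1 < W ∧ 0 < 0 ∧ 0 + 1 < H) :=
    ⟨by omega, by omega, fun h => by cases h⟩
  let o : PV W H := ⟨(true, 0, 0), ho⟩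
  refine ⟨hfin, ?_, ?_⟩
  · have : Nonempty (PV W H) := ⟨o⟩
    refine SimpleGraph.Connected.mk ?_
    intro a b
    exact (pv_reach W H hW o rfl _ a rfl).trans (pv_reach W H hW o rfl _ b rfl).symm
  · let ψ : (Fin W × Fin H) ⊕ (Fin (W - 2) × Fin (H - 2)) → PV W H := fun q => match q with
      | Sum.inl q => ⟨(true, q.1, q.2), q.1.2, q.2.2, fun h => by cases h⟩
      | Sum.inr q => ⟨(false, q.1 + 1, q.2 + 1), by
          have h1 := q.1.2
          have h2 := q.2.2
          refine ⟨?_, ?_, fun _ => ⟨?_, ?_, ?_, ?_⟩⟩ <;> simp only <;> omega⟩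
    have hψ : Function.Bijective ψ := by
      constructor
      · rintro (⟨a, b⟩ | ⟨a, b⟩) (⟨a', b'⟩ | ⟨a', b'⟩) he
        · have := congrArg Subtype.val he
          simp only [ψ, Prod.mk.injEq, true_and] at this
          obtain ⟨h1, h2⟩ := this
          rw [Fin.ext h1, Fin.ext h2]
        · have := congrArg (fun p : PV W H => p.1.1) he
          simp [ψ] at this
        · have := congrArg (fun p : PV W H => p.1.1) he
          simp [ψ] at this
        · have := congrArg Subtype.val he
          simp only [ψ, Prod.mk.injEq, true_and] at this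
          obtain ⟨h1, h2⟩ := this
          rw [Fin.ext (show (a : ℕ) = a' by omega), Fin.ext (show (b : ℕ) = b' by omega)]
      · rintro ⟨⟨a, x, y⟩, h⟩
        cases a
        · have h' := h.2.2 rfl
          simp only at h'
          refine ⟨Sum.inr (⟨x - 1, by omega⟩, ⟨y - 1, by omega⟩), ?_⟩
          apply Subtype.ext
          simp only [ψ, Prod.mk.injEq, true_and]
          omega
        · exact ⟨Sum.inl (⟨x, h.1⟩, ⟨y, h.2.1⟩), rfl⟩
    have hc := Nat.card_congr (Equiv.ofBijective ψ hψ)
    rw [← hc, Nat.card_sum, Nat.card_prod, Nat.card_prod, Nat.card_fin, Nat.card_fin, Nat.card_fin,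
      Nat.card_fin]
    obtain ⟨w, rfl⟩ : ∃ w, W = w + 2 := ⟨W - 2, by omega⟩
    obtain ⟨k, rfl⟩ : ∃ k, H = k + 2 := ⟨H - 2, by omega⟩
    simp only [Nat.add_sub_cancel]
    ring

end Pool.Agent.H64.PL
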